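import Pool.Agent.W510.Cvx.Defs

set_option autoImplicit false
open MvPolynomial
open Pool.Agent.W510.Cvx

namespace Pool.Agent.W417.Cvx.ACT

theorem sub_X (M : Matrix (Fin 3) (Fin 3) ℂ) (k : Fin 3) :
    sub M (X k) = ∑ j : Fin 3, (C (M k j) * X j : R3) := by
  simp [sub]

theorem sub_C (M : Matrix (Fin 3) (Fin 3) ℂ) (c : ℂ) : sub M (C c) = C c := by
  rw [sub, aeval_C]; rfl

theorem sub_sub (M N : Matrix (Fin 3) (Fin 3) ℂ) (h : N * M = 1) (f : R3) :
    sub M (sub N f) = f := by
  have : (sub M).comp (sub N) = AlgHom.id ℂ R3 := by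
    apply MvPolynomial.algHom_ext
    intro i
    rw [AlgHom.comp_apply, sub_X, map_sum, AlgHom.id_apply]
    simp only [map_mul, sub_C, sub_X]
    have e : ∀ l, ∑ j : Fin 3, N i j * M j l = (1 : Matrix (Fin 3) (Fin 3) ℂ) i l := by
      intro l
      rw [← h, Matrix.mul_apply]
    calc ∑ x : Fin 3, (C (N i x) * ∑ j : Fin 3, (C (M x j) * X j : R3))
        = ∑ l : Fin 3, C (∑ j : Fin 3, N i j * M j l) * X l := by
          simp only [Finset.mul_sum, map_sum, Finset.sum_mul, map_mul]
          rw [Finset.sum_comm]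
          apply Finset.sum_congr rfl
          intro l _
          apply Finset.sum_congr rfl
          intro j _
          ring
      _ = X i := by
          simp only [e, Matrix.one_apply]
          simp [apply_ite C, ite_mul]
  exact congrArg (fun g : R3 →ₐ[ℂ] R3 => g f) this

/-- `sub M` as an equivalence -/
noncomputable def subE (M N : Matrix (Fin 3) (Fin 3) ℂ) (h : M * N = 1) : R3 ≃+* R3 where
  toFun := sub M
  invFun := sub N
  left_inv := sub_sub N M h
  right_inv := sub_sub M N (mul_eq_one_comm.mp h)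
  map_mul' := map_mul _
  map_add' := map_add _

theorem pderiv_sub (M : Matrix (Fin 3) (Fin 3) ℂ) (k : Fin 3) (f : R3) :
    pderiv k (sub M f) = ∑ i : Fin 3, C (M i k) * sub M (pderiv i f) := by
  induction f using MvPolynomial.induction_on with
  | C a => simp [sub_C]
  | add p q hp hq => simp only [map_add, hp, hq, mul_add, Finset.sum_add_distrib]
  | mul_X p n hp =>
    simp only [map_mul, Derivation.leibniz, smul_eq_mul, map_add, hp, pderiv_X, mul_add,
      Finset.sum_add_distrib]
    congr 1
    · have h1 : pderiv k (sub M (X n : R3)) = C (M n k) := by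
        rw [sub_X, map_sum]
        simp only [Derivation.leibniz, pderiv_C, smul_zero, add_zero, pderiv_X, smul_eq_mul]
        simp [Pi.single_apply]
      rw [h1]
      have h2 : ∀ i : Fin 3, sub M (Pi.single (M := fun _ => R3) i 1 n : R3) =
          if i = n then 1 else 0 := by
        intro i
        by_cases hi : i = n
        · subst hi; simp
        · rw [if_neg hi, Pi.single_eq_of_ne (Ne.symm hi), map_zero]
      simp only [h2]
      simp [mul_comm]
    · rw [Finset.mul_sum]
      apply Finset.sum_congr rfl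
      intro i _
      ring

theorem drv_act (M N : Matrix (Fin 3) (Fin 3) ℂ) (h : M * N = 1) (V : Fin 3 → R3) (f : R3) :
    drv (act M N V) (sub M f) = sub M (drv V f) := by
  have e : ∀ i l, ∑ j : Fin 3, M i j * N j l = (1 : Matrix (Fin 3) (Fin 3) ℂ) i l := by
    intro i l
    rw [← h, Matrix.mul_apply]
  have e2 : ∀ i, ∑ k : Fin 3, (C (M i k) * act M N V k : R3) = sub M (V i) := by
    intro i
    calc ∑ k : Fin 3, (C (M i k) * act M N V k : R3)
        = ∑ l : Fin 3, C (∑ j : Fin 3, M i j * N j l) * sub M (V l) := by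
          simp only [act, Finset.mul_sum, map_sum, Finset.sum_mul, map_mul]
          rw [Finset.sum_comm]
          apply Finset.sum_congr rfl
          intro l _
          apply Finset.sum_congr rfl
          intro j _
          ring
      _ = sub M (V i) := by
          simp only [e, Matrix.one_apply]
          simp [apply_ite C, ite_mul]
  unfold drv
  simp only [pderiv_sub, Finset.mul_sum, map_sum, map_mul]
  rw [Finset.sum_comm]
  apply Finset.sum_congr rfl
  intro i _
  rw [← e2 i, Finset.sum_mul]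
  apply Finset.sum_congr rfl
  intro k _
  ring

theorem X_eq (M N : Matrix (Fin 3) (Fin 3) ℂ) (h : M * N = 1) (i : Fin 3) :
    (X i : R3) = ∑ j : Fin 3, C (N i j) * sub M (X j) := by
  have h1 := sub_sub M N (mul_eq_one_comm.mp h) (X i)
  rw [sub_X, map_sum] at h1
  simp only [map_mul, sub_C] at h1
  exact h1.symm

theorem drv_act_act (M N : Matrix (Fin 3) (Fin 3) ℂ) (h : M * N = 1) (V : Fin 3 → R3)
    (i : Fin 3) :
    drv (act M N V) (act M N V i) = ∑ j : Fin 3, C (N i j) * sub M (drv V (V j)) := by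
  have hlin : ∀ (W : Fin 3 → R3) (g : Fin 3 → R3) (c : Fin 3 → ℂ),
      drv W (∑ j : Fin 3, C (c j) * g j) = ∑ j : Fin 3, C (c j) * drv W (g j) := by
    intro W g c
    unfold drv
    simp only [map_sum, Derivation.leibniz, pderiv_C, smul_zero, add_zero, smul_eq_mul,
      Finset.mul_sum]
    rw [Finset.sum_comm]
    apply Finset.sum_congr rfl
    intro l _
    apply Finset.sum_congr rfl
    intro j _
    ring
  show drv (act M N V) (∑ j : Fin 3, C (N i j) * sub M (V j)) = _
  rw [hlin]
  simp only [drv_act M N h]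

theorem main : S_act := by
  intro M N V h
  unfold infl
  have h1 : (Matrix.of ![(fun j : Fin 3 => (X j : R3)), act M N V,
      (fun j : Fin 3 => drv (act M N V) (act M N V j))]) =
      ((Matrix.of ![(fun j : Fin 3 => (X j : R3)), V,
      (fun j : Fin 3 => drv V (V j))]).map (sub M)) * (N.map C).transpose := by
    ext1 i j
    rw [Matrix.mul_apply]
    simp only [Matrix.transpose_apply, Matrix.map_apply]
    fin_cases i
    · show (X j : R3) = ∑ l : Fin 3, sub M (X l) * C (N j l)
      rw [X_eq M N h j]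
      apply Finset.sum_congr rfl
      intro l _
      ring
    · show act M N V j = ∑ l : Fin 3, sub M (V l) * C (N j l)
      unfold act
      apply Finset.sum_congr rfl
      intro l _
      ring
    · show drv (act M N V) (act M N V j) = ∑ l : Fin 3, sub M (drv V (V l)) * C (N j l)
      rw [drv_act_act M N h]
      apply Finset.sum_congr rfl
      intro l _
      ring
  rw [h1, Matrix.det_mul, Matrix.det_transpose]
  have h2 : (N.map (C : ℂ →+* R3)).det = C N.det := (RingHom.map_det C N).symm
  have h3 : ((Matrix.of ![(fun j : Fin 3 => (X j : R3)), V,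
      (fun j : Fin 3 => drv V (V j))]).map (sub M)).det = sub M ((Matrix.of ![(fun j : Fin 3 => (X j : R3)), V,
      (fun j : Fin 3 => drv V (V j))]).det) := (AlgHom.map_det (sub M) _).symm
  rw [h3]
  have h4 : (N.map (C : ℂ → R3)).det = C N.det := h2
  rw [h4, mul_comm]

theorem sub_V (M N : Matrix (Fin 3) (Fin 3) ℂ) (h : M * N = 1) (V : Fin 3 → R3) (i : Fin 3) :
    sub M (V i) = ∑ k : Fin 3, (C (M i k) * act M N V k : R3) := by
  have e : ∀ i l, ∑ j : Fin 3, M i j * N j l = (1 : Matrix (Fin 3) (Fin 3) ℂ) i l := by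
    intro i l
    rw [← h, Matrix.mul_apply]
  symm
  calc ∑ k : Fin 3, (C (M i k) * act M N V k : R3)
      = ∑ l : Fin 3, C (∑ j : Fin 3, M i j * N j l) * sub M (V l) := by
        simp only [act, Finset.mul_sum, map_sum, Finset.sum_mul, map_mul]
        rw [Finset.sum_comm]
        apply Finset.sum_congr rfl
        intro l _
        apply Finset.sum_congr rfl
        intro j _
        ring
    _ = sub M (V i) := by
        simp only [e, Matrix.one_apply]
        simp [apply_ite C, ite_mul]

theorem sub_lin (M : Matrix (Fin 3) (Fin 3) ℂ) (a : Fin 3 → ℂ) :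
    sub M (lin a) = lin (fun j => ∑ i, a i * M i j) := by
  unfold lin
  simp only [map_sum, map_mul, sub_C, sub_X, Finset.mul_sum, Finset.sum_mul]
  rw [Finset.sum_comm]
  apply Finset.sum_congr rfl
  intro l _
  apply Finset.sum_congr rfl
  intro j _
  ring

theorem main2 : S_actC := by
  intro d M N V h hV
  have h' : N * M = 1 := mul_eq_one_comm.mp h
  have hdet : N.det ≠ 0 := by
    intro h0
    have := congrArg Matrix.det h
    rw [Matrix.det_mul, h0, mul_zero, Matrix.det_one] at this
    exact zero_ne_one this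
  have hinj : Function.Injective (sub M) := (subE M N h).injective
  refine ⟨?_, ?_, ?_, ?_⟩
  · intro i
    unfold act
    apply IsHomogeneous.sum
    intro j _
    have h1 : (sub M (V j)).IsHomogeneous (1 * d) := by
      apply (hV.hom j).aeval
      intro k
      apply IsHomogeneous.sum
      intro l _
      simpa using (isHomogeneous_C (Fin 3) (M k l)).mul (isHomogeneous_X ℂ l)
    have h2 := (isHomogeneous_C (Fin 3) (N i j)).mul h1
    rwa [one_mul, zero_add] at h2
  · intro p h0 h1 h2
    have hs : ∀ i, sub M (X i : R3) = ∑ k : Fin 3, (C (M i k) * X k : R3) := sub_X M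
    have hv := sub_V M N h V
    have hu : IsUnit (sub N p) := by
      have key : ∀ f : R3, p ∣ sub M f → sub N p ∣ f := by
        rintro f ⟨g, hg⟩
        refine ⟨sub N g, ?_⟩
        rw [← map_mul, ← hg, sub_sub N M h]
      apply hV.cop
      · apply key
        rw [map_sub, map_mul, map_mul, hv, hv, hs, hs]
        simp only [Fin.sum_univ_three]
        obtain ⟨g0, hg0⟩ := h0
        obtain ⟨g1, hg1⟩ := h1
        obtain ⟨g2, hg2⟩ := h2
        refine ⟨C (M 1 1 * M 2 2 - M 1 2 * M 2 1) * g0 + C (M 1 2 * M 2 0 - M 1 0 * M 2 2) * g1 +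
          C (M 1 0 * M 2 1 - M 1 1 * M 2 0) * g2, ?_⟩
        simp only [C_sub, C_mul]
        linear_combination (C (M 1 1) * C (M 2 2) - C (M 1 2) * C (M 2 1)) * hg0 +
          (C (M 1 2) * C (M 2 0) - C (M 1 0) * C (M 2 2)) * hg1 +
          (C (M 1 0) * C (M 2 1) - C (M 1 1) * C (M 2 0)) * hg2
      · apply key
        rw [map_sub, map_mul, map_mul, hv, hv, hs, hs]
        simp only [Fin.sum_univ_three]
        obtain ⟨g0, hg0⟩ := h0
        obtain ⟨g1, hg1⟩ := h1
        obtain ⟨g2, hg2⟩ := h2
        refine ⟨C (M 2 1 * M 0 2 - M 2 2 * M 0 1) * g0 + C (M 2 2 * M 0 0 - M 2 0 * M 0 2) * g1 +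
          C (M 2 0 * M 0 1 - M 2 1 * M 0 0) * g2, ?_⟩
        simp only [C_sub, C_mul]
        linear_combination (C (M 2 1) * C (M 0 2) - C (M 2 2) * C (M 0 1)) * hg0 +
          (C (M 2 2) * C (M 0 0) - C (M 2 0) * C (M 0 2)) * hg1 +
          (C (M 2 0) * C (M 0 1) - C (M 2 1) * C (M 0 0)) * hg2
      · apply key
        rw [map_sub, map_mul, map_mul, hv, hv, hs, hs]
        simp only [Fin.sum_univ_three]
        obtain ⟨g0, hg0⟩ := h0
        obtain ⟨g1, hg1⟩ := h1
        obtain ⟨g2, hg2⟩ := h2
        refine ⟨C (M 0 1 * M 1 2 - M 0 2 * M 1 1) * g0 + C (M 0 2 * M 1 0 - M 0 0 * M 1 2) * g1 +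
          C (M 0 0 * M 1 1 - M 0 1 * M 1 0) * g2, ?_⟩
        simp only [C_sub, C_mul]
        linear_combination (C (M 0 1) * C (M 1 2) - C (M 0 2) * C (M 1 1)) * hg0 +
          (C (M 0 2) * C (M 1 0) - C (M 0 0) * C (M 1 2)) * hg1 +
          (C (M 0 0) * C (M 1 1) - C (M 0 1) * C (M 1 0)) * hg2
    have := hu.map (sub M)
    rwa [sub_sub M N h'] at this
  · rw [main M N V h]
    apply mul_ne_zero
    · rw [Ne, C_eq_zero]; exact hdet
    · rw [Ne, map_eq_zero_iff _ hinj]
      exact hV.ne
  · intro p hp hdvd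
    rw [main M N V h] at hdvd
    have hCu : IsUnit (C N.det : R3) := (isUnit_iff_ne_zero.mpr hdet).map C
    rw [hCu.dvd_mul_left] at hdvd
    have h1 : sub N p ∣ infl V := by
      obtain ⟨g, hg⟩ := hdvd
      refine ⟨sub N g, ?_⟩
      rw [← map_mul, ← hg, sub_sub N M h]
    have h2 : Irreducible (sub N p) := (MulEquiv.irreducible_iff (subE N M h')).mpr hp
    obtain ⟨a, ha1, ha2⟩ := hV.fac _ h2 h1
    refine ⟨fun j => ∑ i, a i * M i j, ?_, ?_⟩
    · have := ha1.map (sub M)
      rwa [sub_sub M N h', sub_lin] at this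
    · rw [← sub_lin]
      have h3 : ∑ i : Fin 3, C (∑ i_1, a i_1 * M i_1 i) * act M N V i =
          sub M (∑ i : Fin 3, C (a i) * V i) := by
        simp only [map_sum, map_mul, sub_C, sub_V M N h V, Finset.mul_sum, Finset.sum_mul]
        rw [Finset.sum_comm]
        apply Finset.sum_congr rfl
        intro l _
        apply Finset.sum_congr rfl
        intro j _
        ring
      rw [h3]
      exact map_dvd _ ha2

theorem euler {f : R3} {n : ℕ} (hf : f.IsHomogeneous n) :
    X 0 * pderiv 0 f + X 1 * pderiv 1 f + X 2 * pderiv 2 f = (n : R3) * f := by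
  have := hf.sum_X_mul_pderiv
  rw [Fin.sum_univ_three, nsmul_eq_mul] at this
  exact this

theorem drv_rad (d : ℕ) (h : R3) (V : Fin 3 → R3) (hh : h.IsHomogeneous (d - 1))
    (hV : ∀ i, (V i).IsHomogeneous d) (i : Fin 3) :
    drv (fun i => V i + h * X i) (V i + h * X i) =
      drv V (V i) + (h + (d : R3) * h) * V i +
        (drv V h + h * (((d - 1 : ℕ) : R3) * h) + h ^ 2) * X i := by
  have e1 := euler hh
  have e2 := euler (hV i)
  unfold drv
  simp only [Fin.sum_univ_three, map_add, Derivation.leibniz, smul_eq_mul]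
  have e3 : V 0 * pderiv 0 (X i : R3) + V 1 * pderiv 1 (X i : R3) + V 2 * pderiv 2 (X i : R3) =
      V i := by
    fin_cases i <;> simp [pderiv_X, Pi.single_apply]
  have e4 : X 0 * pderiv 0 (X i : R3) + X 1 * pderiv 1 (X i : R3) + X 2 * pderiv 2 (X i : R3) =
      X i := by
    fin_cases i <;> simp [pderiv_X, Pi.single_apply]
  linear_combination h * e2 + h * X i * e1 + h * e3 + h ^ 2 * e4

theorem det3 (a b c : Fin 3 → R3) : (Matrix.of ![a, b, c]).det =
    a 0 * b 1 * c 2 - a 0 * b 2 * c 1 - a 1 * b 0 * c 2 + a 1 * b 2 * c 0 + a 2 * b 0 * c 1 -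
      a 2 * b 1 * c 0 := by
  rw [Matrix.det_fin_three]
  rfl

theorem main3 : S_rad := by
  intro d h V hd hh hV
  have hinfl : infl (fun i => V i + h * X i) = infl V := by
    unfold infl
    simp only [drv_rad d h V hh hV]
    rw [det3, det3]
    ring
  refine ⟨hinfl, fun hcv => ⟨?_, ?_, ?_, ?_⟩⟩
  · intro i
    refine (hV i).add ?_
    have := hh.mul (isHomogeneous_X ℂ i)
    rwa [Nat.sub_add_cancel hd] at this
  · intro p h0 h1 h2
    apply hcv.cop
    · convert h0 using 1; ring
    · convert h1 using 1; ring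
    · convert h2 using 1; ring
  · rw [hinfl]; exact hcv.ne
  · intro p hp hdvd
    rw [hinfl] at hdvd
    obtain ⟨a, ha1, ha2⟩ := hcv.fac p hp hdvd
    refine ⟨a, ha1, ?_⟩
    have : ∑ i : Fin 3, C (a i) * (V i + h * X i) = (∑ i : Fin 3, C (a i) * V i) + h * lin a := by
      unfold lin
      simp only [mul_add, Finset.sum_add_distrib, Finset.mul_sum]
      congr 1
      apply Finset.sum_congr rfl
      intro i _
      ring
    rw [this]
    exact dvd_add ha2 (dvd_mul_left _ _)

end Pool.Agent.W417.Cvx.ACT
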